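import Mathlib

/-!
# Q8A : the row budget of the macro steps (K3_QQ, section Q8)

`u p` is the amount of regular unsaturated rows after the precision `p` (units arbitrary).
Step `j` : the label has precision `p j`; one descends over saturated rows to a regular unsaturated
row `p' j ≤ p j` (`u (p' j) ≤ u (p j)`), and one macro step costs `cost j` rows of precision.
-/

open Finset

namespace Pool.QQ8

/-- Descent: the number of unsaturated rows lost in `n` macro steps is at most the total cost. -/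
theorem descent (u : ℝ → ℝ) (hu : ∀ a b, a ≤ b → u a ≤ u b + (b - a))
    (hmono : ∀ a b, a ≤ b → u b ≤ u a)
    (p p' cost : ℕ → ℝ) (n : ℕ) (hc : ∀ j < n, 0 ≤ cost j)
    (hskip : ∀ j < n, u (p' j) ≤ u (p j))
    (hstep : ∀ j < n, p' j - cost j ≤ p (j + 1)) :
    u (p n) ≤ u (p 0) + ∑ j ∈ range n, cost j := by
  induction n with
  | zero => simp
  | succ n ih =>
    have ih' := ih (fun j hj => hc j (by omega)) (fun j hj => hskip j (by omega))
      (fun j hj => hstep j (by omega))
    have h1 := hstep n (by omega)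
    have h2 := hskip n (by omega)
    have h3 := hc n (by omega)
    have h4 : u (p (n + 1)) ≤ u (p' n - cost n) := hmono _ _ h1
    have h5 : u (p' n - cost n) ≤ u (p' n) + (p' n - (p' n - cost n)) := hu _ _ (by linarith)
    rw [sum_range_succ]
    linarith

/-- At most `D / θ` steps have a drop larger than `θ` when the drops sum up to at most `D`. -/
theorem few_drops (drop : ℕ → ℝ) (n : ℕ) (D θ : ℝ) (hθ : 0 < θ)
    (h0 : ∀ j < n, 0 ≤ drop j) (hD : ∑ j ∈ range n, drop j ≤ D) :
    (((range n).filter (fun j => θ < drop j)).card : ℝ) ≤ D / θ := by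
  rw [le_div_iff₀ hθ]
  calc (((range n).filter (fun j => θ < drop j)).card : ℝ) * θ
      = ∑ _j ∈ (range n).filter (fun j => θ < drop j), θ := by
        rw [sum_const, nsmul_eq_mul]
    _ ≤ ∑ j ∈ (range n).filter (fun j => θ < drop j), drop j :=
        sum_le_sum (fun j hj => le_of_lt (mem_filter.mp hj).2)
    _ ≤ ∑ j ∈ range n, drop j :=
        sum_le_sum_of_subset_of_nonneg (filter_subset _ _)
          (fun j hj _ => h0 j (mem_range.mp hj))
    _ ≤ D := hD

/-- The sum of the costs: cheap steps cost `η x + ν`, the others (drop larger than `η g`, sum of the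
drops at most `C g`) cost the trivial `2 x + ν`. -/
theorem sum_cost (drop cost : ℕ → ℝ) (n : ℕ) (x η g C ν : ℝ) (hx : 0 ≤ x) (hη : 0 < η) (hg : 0 < g)
    (hν : 0 ≤ ν) (h0 : ∀ j < n, 0 ≤ drop j) (hD : ∑ j ∈ range n, drop j ≤ C * g)
    (hcheap : ∀ j < n, drop j ≤ η * g → cost j ≤ η * x + ν)
    (htriv : ∀ j < n, cost j ≤ 2 * x + ν) (hn : (n : ℝ) * x ≤ 1) :
    ∑ j ∈ range n, cost j ≤ η + 2 * C * x / η + n * ν := by
  have hfew := few_drops drop n (C * g) (η * g) (by positivity) h0 hD
  have hfew' : (((range n).filter (fun j => η * g < drop j)).card : ℝ) ≤ C / η := by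
    have : C * g / (η * g) = C / η := by field_simp
    linarith [this]
  have hpt : ∀ j ∈ range n, cost j ≤ (η * x + ν) + (if η * g < drop j then 2 * x else 0) := by
    intro j hj
    have hj' := mem_range.mp hj
    by_cases h : η * g < drop j
    · rw [if_pos h]
      have := htriv j hj'
      nlinarith [mul_nonneg hη.le hx]
    · rw [if_neg h]
      have := hcheap j hj' (not_lt.mp h)
      linarith
  have hsum : ∑ j ∈ range n, cost j
      ≤ n * (η * x + ν) + (((range n).filter (fun j => η * g < drop j)).card : ℝ) * (2 * x) := by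
    refine (sum_le_sum hpt).trans (le_of_eq ?_)
    rw [sum_add_distrib, sum_const, card_range, nsmul_eq_mul, ← sum_filter, sum_const, nsmul_eq_mul]
  have h2 : (((range n).filter (fun j => η * g < drop j)).card : ℝ) * (2 * x) ≤ C / η * (2 * x) :=
    mul_le_mul_of_nonneg_right hfew' (by linarith)
  have h3 : C / η * (2 * x) = 2 * C * x / η := by ring
  have h4 : (n : ℝ) * (η * x + ν) = η * (n * x) + n * ν := by ring
  have h5 : η * ((n : ℝ) * x) ≤ η * 1 := mul_le_mul_of_nonneg_left hn hη.le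
  linarith

/-- ROW BUDGET (Q8). `n x ≤ 1` macro steps of length `x`; if the unsaturated rows have density at
least `c` in every tail, the final precision is at least `1 - B / c`. -/
theorem row_budget (u : ℝ → ℝ) (hu : ∀ a b, a ≤ b → u a ≤ u b + (b - a))
    (hmono : ∀ a b, a ≤ b → u b ≤ u a) (c : ℝ) (hc0 : 0 < c)
    (hP3 : ∀ q, q ≤ 1 → c * (1 - q) ≤ u q)
    (p p' cost drop : ℕ → ℝ) (n : ℕ) (x η g C ν : ℝ) (hx : 0 ≤ x) (hη : 0 < η) (hg : 0 < g)
    (hν : 0 ≤ ν) (hcost : ∀ j < n, 0 ≤ cost j) (h0 : ∀ j < n, 0 ≤ drop j)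
    (hD : ∑ j ∈ range n, drop j ≤ C * g)
    (hcheap : ∀ j < n, drop j ≤ η * g → cost j ≤ η * x + ν)
    (htriv : ∀ j < n, cost j ≤ 2 * x + ν) (hn : (n : ℝ) * x ≤ 1)
    (hskip : ∀ j < n, u (p' j) ≤ u (p j))
    (hstep : ∀ j < n, p' j - cost j ≤ p (j + 1)) (hpn : p n ≤ 1) :
    1 - (u (p 0) + η + 2 * C * x / η + n * ν) / c ≤ p n := by
  have h1 := descent u hu hmono p p' cost n hcost hskip hstep
  have h2 := sum_cost drop cost n x η g C ν hx hη hg hν h0 hD hcheap htriv hn
  have h3 := hP3 (p n) hpn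
  have h4 : (1 - p n) ≤ (u (p 0) + η + 2 * C * x / η + n * ν) / c := by
    rw [le_div_iff₀ hc0]
    linarith
  linarith

/-! ### Rows as a finite set of natural numbers -/

/-- number of rows of `U` in `(q, J]` -/
def cnt (U : Finset ℕ) (J q : ℕ) : ℕ := (U.filter (fun r => q < r ∧ r ≤ J)).card

theorem cnt_le_add (U : Finset ℕ) (J a b : ℕ) (hab : a ≤ b) :
    cnt U J a ≤ cnt U J b + (b - a) := by
  unfold cnt
  have hsub : U.filter (fun r => a < r ∧ r ≤ J)
      ⊆ U.filter (fun r => b < r ∧ r ≤ J) ∪ Finset.Ioc a b := by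
    intro r hr
    simp only [mem_filter, mem_union, Finset.mem_Ioc] at hr ⊢
    by_cases h : b < r
    · exact Or.inl ⟨hr.1, h, hr.2.2⟩
    · exact Or.inr ⟨hr.2.1, by omega⟩
  calc _ ≤ (U.filter (fun r => b < r ∧ r ≤ J) ∪ Finset.Ioc a b).card := card_le_card hsub
    _ ≤ _ := card_union_le _ _
    _ = _ := by rw [Nat.card_Ioc]

theorem cnt_anti (U : Finset ℕ) (J a b : ℕ) (hab : a ≤ b) : cnt U J b ≤ cnt U J a := by
  unfold cnt
  apply card_le_card
  intro r hr
  simp only [mem_filter] at hr ⊢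
  exact ⟨hr.1, by omega, hr.2.2⟩

theorem cnt_skip (U : Finset ℕ) (J a b : ℕ) (h : ∀ r ∈ U, ¬ (a < r ∧ r ≤ b)) :
    cnt U J a ≤ cnt U J b := by
  unfold cnt
  apply card_le_card
  intro r hr
  simp only [mem_filter] at hr ⊢
  refine ⟨hr.1, ?_, hr.2.2⟩
  by_contra hb
  exact h r hr.1 ⟨hr.2.1, by omega⟩

/-- the largest regular unsaturated row `≤ p` (or `0`) -/
noncomputable def prev (U : Finset ℕ) (p : ℕ) : ℕ := (U.filter (fun r => r ≤ p)).sup id

theorem prev_le (U : Finset ℕ) (p : ℕ) : prev U p ≤ p := by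
  unfold prev
  apply Finset.sup_le
  intro r hr
  exact (mem_filter.mp hr).2

theorem prev_skip (U : Finset ℕ) (p : ℕ) : ∀ r ∈ U, ¬ (prev U p < r ∧ r ≤ p) := by
  intro r hr h
  have h1 : r ≤ prev U p := by
    unfold prev
    exact Finset.le_sup (f := id) (mem_filter.mpr ⟨hr, h.2⟩)
  omega

theorem prev_mem (U : Finset ℕ) (p : ℕ) (h : prev U p ≠ 0) : prev U p ∈ U := by
  unfold prev at *
  have hne : (U.filter (fun r => r ≤ p)).Nonempty := by
    by_contra hn
    rw [not_nonempty_iff_eq_empty] at hn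
    rw [hn] at h
    simp at h
  obtain ⟨r, hr, hre⟩ := Finset.exists_mem_eq_sup _ hne id
  rw [hre]
  exact (mem_filter.mp hr).1

/-- Descent with rows in `ℕ`: every step starts at the previous regular unsaturated row. -/
theorem descent_rows (U : Finset ℕ) (J n : ℕ) (p : ℕ → ℕ) (cost : ℕ → ℝ)
    (hc : ∀ j < n, 0 ≤ cost j)
    (hstep : ∀ j < n, (prev U (p j) : ℝ) ≤ p (j + 1) + cost j) :
    (cnt U J (p n) : ℝ) ≤ cnt U J (p 0) + ∑ j ∈ range n, cost j := by
  induction n with
  | zero => simp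
  | succ n ih =>
    have ih' := ih (fun j hj => hc j (by omega)) (fun j hj => hstep j (by omega))
    have h1 := hstep n (by omega)
    have h3 := hc n (by omega)
    have h2 : (cnt U J (prev U (p n)) : ℝ) ≤ cnt U J (p n) := by
      exact_mod_cast cnt_skip U J _ _ (prev_skip U (p n))
    rw [sum_range_succ]
    rcases le_total (prev U (p n)) (p (n + 1)) with h | h
    · have : (cnt U J (p (n + 1)) : ℝ) ≤ cnt U J (prev U (p n)) := by
        exact_mod_cast cnt_anti U J _ _ h
      linarith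
    · have h4 : (cnt U J (p (n + 1)) : ℝ)
          ≤ cnt U J (prev U (p n)) + ((prev U (p n) : ℝ) - p (n + 1)) := by
        have := cnt_le_add U J _ _ h
        have h5 : ((prev U (p n) - p (n + 1) : ℕ) : ℝ) = (prev U (p n) : ℝ) - p (n + 1) :=
          Nat.cast_sub h
        rw [← h5]
        exact_mod_cast this
      linarith

/-- ROW BUDGET with rows in `ℕ` (bits): final precision at least `J - B / c`. -/
theorem row_budget_rows (U : Finset ℕ) (J n : ℕ) (c : ℝ) (hc0 : 0 < c)
    (hP3 : ∀ q, q ≤ J → c * ((J : ℝ) - q) ≤ cnt U J q)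
    (p : ℕ → ℕ) (cost drop : ℕ → ℝ) (x η g C ν : ℝ) (hx : 0 ≤ x) (hη : 0 < η) (hg : 0 < g)
    (hν : 0 ≤ ν) (hcost : ∀ j < n, 0 ≤ cost j) (h0 : ∀ j < n, 0 ≤ drop j)
    (hD : ∑ j ∈ range n, drop j ≤ C * g)
    (hcheap : ∀ j < n, drop j ≤ η * g → cost j ≤ (η * x + ν) * J)
    (htriv : ∀ j < n, cost j ≤ (2 * x + ν) * J) (hn : (n : ℝ) * x ≤ 1)
    (hstep : ∀ j < n, (prev U (p j) : ℝ) ≤ p (j + 1) + cost j) (hpn : p n ≤ J) :
    (J : ℝ) - (cnt U J (p 0) + (η + 2 * C * x / η + n * ν) * J) / c ≤ p n := by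
  have h1 := descent_rows U J n p cost hcost hstep
  have h3 := hP3 (p n) hpn
  have h2 : ∑ j ∈ range n, cost j ≤ (η + 2 * C * x / η + n * ν) * J := by
    rcases Nat.eq_zero_or_pos J with hJ | hJ
    · subst hJ
      have : ∀ j ∈ range n, cost j ≤ 0 := by
        intro j hj
        have := htriv j (mem_range.mp hj)
        simpa using this
      have := sum_nonpos this
      simpa using this
    · have hJ' : (0 : ℝ) < J := by exact_mod_cast hJ
      have hs := sum_cost drop (fun j => cost j / J) n x η g C ν hx hη hg hν h0 hD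
        (fun j hj hd => by rw [div_le_iff₀ hJ']; exact hcheap j hj hd)
        (fun j hj => by rw [div_le_iff₀ hJ']; exact htriv j hj) hn
      have hs' : (∑ j ∈ range n, cost j) / J ≤ η + 2 * C * x / η + n * ν := by
        rw [sum_div]; exact hs
      rwa [div_le_iff₀ hJ'] at hs'
  have h4 : ((J : ℝ) - p n) ≤ (cnt U J (p 0) + (η + 2 * C * x / η + n * ν) * J) / c := by
    rw [le_div_iff₀ hc0]
    linarith
  linarith

end Pool.QQ8
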